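import Pool.Agent.H8.UGC.FinK2
import Pool.Agent.H13.UGK.Gglc2

/-!
# General hypersurfaces of nearly quadratic degree are hyperbolic
-/

set_option autoImplicit false

namespace Pool.Agent.Results.MP_b509a1_ag.GeneralHypersurfaces

/-- For `D ≥ 2`, `D ≥ 2 n - 1 + k` and `d ≥ 100 D² (5 + log D)²` the non-hyperbolic forms of degree `d`
in `n + 2` variables lie in a Zariski closed cone of codimension greater than `k` (for `k = 0`: general
hypersurfaces of degree `d` in `ℙ^{n+1}` are hyperbolic). -/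
theorem result (n k D d : ℕ) (hn : 1 ≤ n) (hD : 2 ≤ D) (hnk : 2 * n + k ≤ D + 1)
    (hd : 100 * (D : ℝ) ^ 2 * (5 + Real.log D) ^ 2 ≤ (d : ℝ)) :
    ∃ I : Ideal (MvPolynomial ↥(Finset.finsuppAntidiag (Finset.univ : Finset (Fin (n + 2))) d) ℂ),
      (∀ f ∈ I, ∀ j, MvPolynomial.homogeneousComponent j f ∈ I) ∧
      ringKrullDim (MvPolynomial ↥(Finset.finsuppAntidiag
        (Finset.univ : Finset (Fin (n + 2))) d) ℂ ⧸ I) + ((k + 1 : ℕ) : WithBot ℕ∞) ≤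
        (Fintype.card ↥(Finset.finsuppAntidiag (Finset.univ : Finset (Fin (n + 2))) d) :
          WithBot ℕ∞) ∧
      ∀ F : MvPolynomial (Fin (n + 2)) ℂ, F.IsHomogeneous d →
        (∃ f ∈ I, MvPolynomial.eval
          (fun α : ↥(Finset.finsuppAntidiag (Finset.univ : Finset (Fin (n + 2))) d) =>
            F.coeff α.1) f ≠ 0) →
        ∀ g : ℂ → Fin (n + 2) → ℂ, Differentiable ℂ g → (∀ z, g z ≠ 0) →
          (∀ z, MvPolynomial.eval (g z) F = 0) → ∀ z, ∃ c : ℂ, g z = c • g 0 := by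
  have hd1 : 1 ≤ d := by
    have h1 : (2 : ℝ) ≤ D := by exact_mod_cast hD
    have h2 : 0 ≤ Real.log (D : ℝ) := Real.log_nonneg (by linarith)
    have h3 : (1 : ℝ) ≤ (D : ℝ) ^ 2 := by nlinarith
    have h4 : (1 : ℝ) ≤ (5 + Real.log (D : ℝ)) ^ 2 := by nlinarith
    have h5 : (1 : ℝ) ≤ (D : ℝ) ^ 2 * (5 + Real.log (D : ℝ)) ^ 2 :=
      one_le_mul_of_one_le_of_one_le h3 h4
    have h6 : (1 : ℝ) ≤ (d : ℝ) := by linarith
    exact_mod_cast h6
  obtain ⟨l, rfl⟩ : ∃ l, D = 2 * n - 1 + (k + l) := ⟨D - (2 * n - 1 + k), by omega⟩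
  obtain ⟨I, h1, h2, h3⟩ := Pool.Agent.H8.UGC.hypK_of_gglc' n (k + l) d hn hd1
    (Pool.Agent.H13.UGK.gglc2 hD hd)
  refine ⟨I, h1, le_trans (add_le_add_right ?_ _) h2, h3⟩
  exact_mod_cast (by omega : k + 1 ≤ k + l + 1)

end Pool.Agent.Results.MP_b509a1_ag.GeneralHypersurfaces
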