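import Pool.Agent.H13.LS.Fin

/-!
# Linear systems of hyperbolic hypersurfaces in linear degree
-/

set_option autoImplicit false

namespace Pool.Agent.Results.MP_b509a1_ag.LinearSystems

/-- Let `V` be an irreducible closed cone of codimension at most `k` in the space of forms of
degree `d` in `n + 2` variables, given by the homogeneous prime ideal `P`, and let `Q` be not in
`P`. For `d ≥ 27 (n + 1) + 21 k` (or `k = 0` and `d ≥ 24 (n + 1)`) there is a nonempty open set of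
linear systems spanned by `k + 1` forms of degree `d`, all of whose nonzero members are hyperbolic
and which have a nonzero member in `V` outside `Q = 0`. -/
theorem result (n : ℕ) (hn : 1 ≤ n) (k d : ℕ)
    (hd : 27 * (n + 1) + 21 * k ≤ d ∨ (k = 0 ∧ 24 * (n + 1) ≤ d))
    (P : Ideal (MvPolynomial ↥(Finset.finsuppAntidiag (Finset.univ : Finset (Fin (n + 2))) d) ℂ))
    (hP : P.IsPrime) (hhom : ∀ f ∈ P, ∀ j, MvPolynomial.homogeneousComponent j f ∈ P)
    (hdim : (Fintype.card ↥(Finset.finsuppAntidiag (Finset.univ : Finset (Fin (n + 2))) d) :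
        WithBot ℕ∞) ≤
      ringKrullDim (MvPolynomial ↥(Finset.finsuppAntidiag
        (Finset.univ : Finset (Fin (n + 2))) d) ℂ ⧸ P) + (k : WithBot ℕ∞))
    (Q : MvPolynomial ↥(Finset.finsuppAntidiag (Finset.univ : Finset (Fin (n + 2))) d) ℂ)
    (hQ : Q ∉ P) :
    ∃ F₀ : Fin (k + 1) → MvPolynomial (Fin (n + 2)) ℂ, (∀ r, (F₀ r).IsHomogeneous d) ∧
      (∀ r, ∀ x : Fin (n + 2) → ℂ, x ≠ 0 → MvPolynomial.eval x (F₀ r) = 0 →
        ∃ i, MvPolynomial.eval x (MvPolynomial.pderiv i (F₀ r)) ≠ 0) ∧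
      ∃ ε : ℝ, 0 < ε ∧ ∀ F : Fin (k + 1) → MvPolynomial (Fin (n + 2)) ℂ,
        (∀ r, (F r).IsHomogeneous d) → (∀ r m, ‖(F r).coeff m - (F₀ r).coeff m‖ < ε) →
        (∀ lam : Fin (k + 1) → ℂ, lam ≠ 0 →
          ∀ g : ℂ → Fin (n + 2) → ℂ, Differentiable ℂ g → (∀ z, g z ≠ 0) →
            (∀ z, MvPolynomial.eval (g z) (∑ r, MvPolynomial.C (lam r) * F r) = 0) →
            ∀ z, ∃ c : ℂ, g z = c • g 0) ∧
        ∃ lam : Fin (k + 1) → ℂ, lam ≠ 0 ∧
          (∀ f ∈ P, MvPolynomial.eval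
            (fun α : ↥(Finset.finsuppAntidiag (Finset.univ : Finset (Fin (n + 2))) d) =>
              (∑ r, MvPolynomial.C (lam r) * F r).coeff α.1) f = 0) ∧
          MvPolynomial.eval
            (fun α : ↥(Finset.finsuppAntidiag (Finset.univ : Finset (Fin (n + 2))) d) =>
              (∑ r, MvPolynomial.C (lam r) * F r).coeff α.1) Q ≠ 0 :=
  Pool.Agent.H13.LS.mainS Pool.Agent.H13.LS.dens2_holds hn hd P hP hhom hdim Q hQ

end Pool.Agent.Results.MP_b509a1_ag.LinearSystems
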