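import Pool.Agent.H48.RK.AllP

/-!
# Random hypersurfaces and random linear systems of hypersurfaces are hyperbolic

For `d ≥ C n log n` and `k ≤ c d` all members of all linear systems near a random linear system of
dimension `k` of hypersurfaces of degree `d` in `ℙ^(n+1)` are hyperbolic, with probability at least
`1 - exp(-c d²/n)`.
-/

set_option autoImplicit false

namespace Pool.Agent.Results.MP_b509a1_ag.RandomHypersurfaces

open MeasureTheory Metric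

/-- the exponent vectors `α = (α_1, .., α_m)` of total degree `d` -/
abbrev Mon (m d : ℕ) := ↥(Finset.piAntidiag (Finset.univ : Finset (Fin m)) d)

/-- the form `∑ a_α (d!/α!)^(1/2) z^α` of degree `d` in `m` variables -/
noncomputable def form {m d : ℕ} (a : Mon m d → ℂ) (z : Fin m → ℂ) : ℂ :=
  ∑ α, a α * (((Real.sqrt (Nat.multinomial Finset.univ α.1 : ℝ) : ℝ) : ℂ) * ∏ i, z i ^ α.1 i)

/-- the standard complex Gaussian measure on `ℂ^T`: independent coordinates, each with density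
`exp(-|x|^2)/π` -/
noncomputable def gauss (T : Type*) [Fintype T] : Measure (T → ℂ) :=
  (volume : Measure (T → ℂ)).withDensity fun a =>
    ENNReal.ofReal (∏ t, (Real.exp (-‖a t‖ ^ 2) / Real.pi))

/-- the Fubini-Study norm at `z` of the derivative of the holomorphic curve `[f]` in projective
space: `(|f|^2 |f'|^2 - |<f, f'>|^2)^(1/2) / |f|^2` -/
noncomputable def fs {m : ℕ} (f : ℂ → Fin m → ℂ) (z : ℂ) : ℝ :=
  Real.sqrt ((∑ i, ‖f z i‖ ^ 2) * (∑ i, ‖deriv f z i‖ ^ 2) -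
    ‖∑ i, f z i * (starRingEnd ℂ) (deriv f z i)‖ ^ 2) / ∑ i, ‖f z i‖ ^ 2

/-- the hypersurface `form a = 0` is hyperbolic: every holomorphic map from the unit disc to it has
Fubini-Study derivative less than `4 r` at `0`, and every entire curve in it is constant -/
def Hyperbolic {m d : ℕ} (r : ℝ) (a : Mon m d → ℂ) : Prop :=
  (∀ f : ℂ → Fin m → ℂ, DifferentiableOn ℂ f (ball 0 1) → (∀ z ∈ ball (0 : ℂ) 1, f z ≠ 0) →
    (∀ z ∈ ball (0 : ℂ) 1, form a (f z) = 0) → fs f 0 < 4 * r) ∧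
  ∀ g : ℂ → Fin m → ℂ, Differentiable ℂ g → (∀ z, g z ≠ 0) → (∀ z, form a (g z) = 0) →
    ∀ z, ∃ c : ℂ, g z = c • g 0

/-- all members of all linear systems `B` within distance `δ` of the linear system `A` (sup norm
on the unit ball) are hyperbolic -/
def Good {m d k : ℕ} (r δ : ℝ) (A : Fin (k + 1) → Mon m d → ℂ) : Prop :=
  ∀ B : Fin (k + 1) → Mon m d → ℂ,
    (∀ i, ∀ z : Fin m → ℂ, ∑ j, ‖z j‖ ^ 2 ≤ 1 → ‖form (B i) z - form (A i) z‖ ≤ δ) →
    ∀ l : Fin (k + 1) → ℂ, l ≠ 0 → Hyperbolic r (∑ i, l i • B i)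

theorem result : ∃ C C' c : ℝ, 0 < C ∧ 0 < C' ∧ 0 < c ∧
    (∀ n d : ℕ, 1 ≤ n → C' * (n + 2) * Real.log (n + 2) ≤ d →
      C * (n + 2) * Real.log (d + 2) ≤ d) ∧
    ∀ (n d k : ℕ) (r : ℝ), 1 ≤ n → 0 < r → r ≤ 1 →
      C * (n + 2) * Real.log (d + 2) ≤ r ^ 2 * d → (k : ℝ) ≤ c * (r ^ 2 * d) →
      gauss (Fin (k + 1) × Mon (n + 2) d) Set.univ = 1 ∧
      ∀ F : Fin (k + 1) → Mon (n + 2) d → ℂ,
        (∀ i, ∀ z : Fin (n + 2) → ℂ, ∑ j, ‖z j‖ ^ 2 ≤ 1 → ‖form (F i) z‖ ≤ 1) →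
        (∀ s : ℝ, Real.exp (-c * (r ^ 2 * d) / (n + 2)) ≤ s →
          gauss (Fin (k + 1) × Mon (n + 2) d)
              {G | ¬ Good r (s * Real.exp (-(r ^ 2 * d) / (n + 2)))
                (fun i α => F i α + (s : ℂ) * G (i, α))} ≤
            ENNReal.ofReal (Real.exp (-c * (r ^ 2 * d) ^ 2 / (n + 2)))) ∧
        ∃ A : Fin (k + 1) → Mon (n + 2) d → ℂ,
          Good r (Real.exp (-2 * (r ^ 2 * d) / (n + 2))) A ∧
          ∀ i, ∀ z : Fin (n + 2) → ℂ, ∑ j, ‖z j‖ ^ 2 ≤ 1 →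
            ‖form (A i) z - form (F i) z‖ ≤ Real.exp (-c * (r ^ 2 * d) / (n + 2)) := by
  obtain ⟨C, C', c, h1, h2, h3, h4, h5⟩ := Pool.Agent.H48.RK.finalP_holds
  exact ⟨C, C', c, h1, h2, h3, h4, fun n d k r hn h0 hr hd hk =>
    ⟨Pool.Agent.H72.RK.gamUniv _, h5 n d k r hn h0 hr hd hk⟩⟩

end Pool.Agent.Results.MP_b509a1_ag.RandomHypersurfaces
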