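import Pool.Agent.H13.Nev.Final

/-!
# A second main theorem on general hypersurfaces of degree `d ≥ 2n+1`

For `n ≥ 1` and `d ≥ 2n+1` there are constants `C` and `m` such that, outside a proper
Zariski-closed set of degree-`d` forms `F` in `n+2` variables,
* (a) every entire curve `g` in `{F = 0} ⊂ ℙ^{n+1}`, and all `n+2` linearly independent hyperplanes
  `H_j`, satisfy `T_g(r) ≤ C ∑_j N̄(r, H_j ∘ g) + K (1 + log r + log⁺ T_g(r))` outside a set of
  radii of finite measure, where `N̄` counts zeros without multiplicity (it is the counting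
  function of the poles of the logarithmic derivative of `H_j ∘ g`);
* (b) more generally a bound of the same shape holds if `g = ∑_j f_j q_j` with `k` entire functions
  `f_j` and entire vectors `q_j`, with the characteristics of the `q_j` as an additional term;
* (c) if all zeros of all `H_j ∘ g` have multiplicity at least `m`, then `g` is constant in `ℙ^{n+1}`;
* (d) for `M ≥ m` and linearly independent linear forms `L_j`, the hypersurface
  `F(L_0^M, …, L_{n+1}^M) = 0` contains no nonconstant entire curve.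
-/

open Real ValueDistribution

namespace Pool.Agent.Results.MP_b509a1_ag.SecondMain

theorem result :
    ∀ n : ℕ, 1 ≤ n → ∀ d : ℕ, 2 * n + 1 ≤ d → ∃ (C : ℝ) (m : ℕ), ∀ k : ℕ,
      ∃ (C' : ℝ) (P : MvPolynomial ((Fin (n + 2)) →₀ ℕ) ℂ),
        (∃ F₀ : MvPolynomial (Fin (n + 2)) ℂ, F₀.IsHomogeneous d ∧
            MvPolynomial.eval (fun m => F₀.coeff m) P ≠ 0) ∧
        ∀ F : MvPolynomial (Fin (n + 2)) ℂ, F.IsHomogeneous d →
          MvPolynomial.eval (fun m => F.coeff m) P ≠ 0 →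
          -- (a) the second main theorem for hyperplanes, with truncation to level one
          (∀ g : ℂ → Fin (n + 2) → ℂ, Differentiable ℂ g → (∀ z, g z ≠ 0) →
            (∀ z, MvPolynomial.eval (g z) F = 0) →
            ∀ H : Fin (n + 2) → Fin (n + 2) → ℂ, LinearIndependent ℂ H →
            ∃ K : ℝ, MeasureTheory.volume {r : ℝ | 1 ≤ r ∧
              ¬ circleAverage (fun z => log ‖g z‖) 0 r
                ≤ C * ∑ j, logCounting (logDeriv fun z => ∑ i, H j i * g z i) ⊤ r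
                  + K * (1 + log r + log⁺ (circleAverage (fun z => log ‖g z‖) 0 r))} < ⊤) ∧
          -- (b) the second main theorem for combinations of `k` functions with moving coefficients
          (∀ (f : Fin k → ℂ → ℂ) (q : Fin k → ℂ → Fin (n + 2) → ℂ) (g : ℂ → Fin (n + 2) → ℂ),
            (∀ j, Differentiable ℂ (f j)) → (∀ j, Differentiable ℂ (q j)) →
            (∀ z, g z = ∑ j, f j z • q j z) → (∀ z, g z ≠ 0) →
            (∀ z, MvPolynomial.eval (g z) F = 0) →
            ∃ K : ℝ, MeasureTheory.volume {r : ℝ | 1 ≤ r ∧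
              ¬ circleAverage (fun z => log ‖g z‖) 0 r
                ≤ C' * (∑ j, logCounting (logDeriv (f j)) ⊤ r + ∑ j, characteristic (q j) ⊤ r)
                  + K * (1 + log r
                      + log⁺ (circleAverage (fun z => log ‖fun j => f j z‖) 0 r))} < ⊤) ∧
          -- (c) orbifold curves are constant
          (∀ g : ℂ → Fin (n + 2) → ℂ, Differentiable ℂ g → (∀ z, g z ≠ 0) →
            (∀ z, MvPolynomial.eval (g z) F = 0) →
            ∀ H : Fin (n + 2) → Fin (n + 2) → ℂ, LinearIndependent ℂ H →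
            (∀ j z, ∑ i, H j i * g z i = 0 →
              (m : ℕ∞) ≤ analyticOrderAt (fun w => ∑ i, H j i * g w i) z) →
            ∀ z, ∃ c : ℂ, g z = c • g 0) ∧
          -- (d) the hypersurfaces `F(L₀^M, …, L_{n+1}^M) = 0` contain no entire curve
          (∀ M : ℕ, m ≤ M → ∀ L : Fin (n + 2) → Fin (n + 2) → ℂ, LinearIndependent ℂ L →
            ∀ h : ℂ → Fin (n + 2) → ℂ, Differentiable ℂ h → (∀ z, h z ≠ 0) →
            (∀ z, MvPolynomial.eval (fun j => (∑ i, L j i * h z i) ^ M) F = 0) →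
            ∀ z, ∃ c : ℂ, h z = c • h 0) := by
  intro n hn d hd
  obtain ⟨C, hC⟩ := Pool.Agent.H13.Nev.smt_hyper (n + 2) d
  obtain ⟨m, hm1, hm⟩ := Pool.Agent.H13.Nev.orbifold (n + 2) d
  refine ⟨C, m, fun k => ?_⟩
  obtain ⟨C', hC'⟩ := Pool.Agent.H13.Nev.smt_fun (n + 2) k d
  obtain ⟨e₁, he₁⟩ := Pool.Agent.H13.Kob.exists_bounded_type (n + 2) d
  obtain ⟨e₂, he₂⟩ := Pool.Agent.H13.Kob.exists_bounded_type k d
  have hthin := Pool.Agent.H13.CEV.bounded_curves (N := n + 2) (d := d) (by omega) (by omega)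
    (e₁ + e₂)
  obtain ⟨P, hP0, hP⟩ := Pool.Agent.H13.Kob.exists_open hthin
  refine ⟨C', P, hP0, fun F hF hFP => ?_⟩
  have hgood : Pool.Agent.H13.Kob.Good (e₁ + e₂)
      (fun m : Pool.Agent.H13.Kob.mons (n + 2) d => F.coeff m.1) := by
    intro v hv i j a b
    by_contra hne
    exact hP F hF hFP ⟨v, hv, i, j, a, b, hne⟩
  have hFm := Pool.Agent.H13.Kob.eq_Fm hF
  have hb₁ : ∀ a : Fin (n + 2) → ℕ, ∃ b : Fin (n + 2) → ℕ,
      Pool.Agent.H13.Kob.SameType d a b ∧ ∀ j, b j ≤ e₁ + e₂ := by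
    intro a
    obtain ⟨b, hb1, hb2⟩ := he₁ a
    exact ⟨b, hb1, fun j => (hb2 j).trans (by omega)⟩
  have hb₂ : ∀ a : Fin k → ℕ, ∃ b : Fin k → ℕ,
      Pool.Agent.H13.Kob.SameType d a b ∧ ∀ j, b j ≤ e₁ + e₂ := by
    intro a
    obtain ⟨b, hb1, hb2⟩ := he₂ a
    exact ⟨b, hb1, fun j => (hb2 j).trans (by omega)⟩
  have horb : ∀ g : ℂ → Fin (n + 2) → ℂ, Differentiable ℂ g → (∀ z, g z ≠ 0) →
      (∀ z, MvPolynomial.eval (g z) F = 0) →
      ∀ H : Fin (n + 2) → Fin (n + 2) → ℂ, LinearIndependent ℂ H →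
      (∀ j z, ∑ i, H j i * g z i = 0 →
        (m : ℕ∞) ≤ analyticOrderAt (fun w => ∑ i, H j i * g w i) z) →
      ∀ z, ∃ c : ℂ, g z = c • g 0 := fun g hg hg0 hgF H hH hz =>
    hm (e₁ + e₂) _ hgood hb₁ g hg hg0 (fun z => by rw [← hFm]; exact hgF z) H hH hz
  refine ⟨?_, ?_, horb, ?_⟩
  · intro g hg hg0 hgF H hH
    exact hC (e₁ + e₂) _ hgood hb₁ g hg hg0 (fun z => by rw [← hFm]; exact hgF z) H hH
  · intro f q g hf hq hg hg0 hgF
    exact hC' (e₁ + e₂) _ hgood hb₂ f q g hf hq hg hg0 (fun z => by rw [← hFm]; exact hgF z)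
  · intro M hM L hL h hh hh0 hF' z
    exact Pool.Agent.H13.Nev.fermat hm1 horb hM hh hh0 L hL hF' z

end Pool.Agent.Results.MP_b509a1_ag.SecondMain
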